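import Mathlib

namespace Pool.Agent.H.MP_147277_co

open Finset

def D (n : ℕ) (R S : ℕ → ℕ → ℕ → Prop) : Prop :=
  ∃ π : Equiv.Perm (Fin n), ∀ a b c : Fin n, ¬ (a = b ∧ b = c) → R a b c →
    S (π a) (π b) (π c) → False

def I (s : ℤ) (a b c : ℕ) : Prop := |(a : ℤ) + c - 2 * b| ≤ s

def C (n : ℕ) (s : ℤ) (a b c : ℕ) : Prop := ∃ m : ℤ, |(a : ℤ) + c - 2 * b - m * n| ≤ s

def Str (n M : ℕ) (sz : Fin M → ℕ) (R Q R' : ℕ → ℕ → ℕ → Prop) : Prop :=
  ∃ f : Fin M → ℕ → ℕ, (∀ i p, p < sz i → f i p < n) ∧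
    (∀ i p j q, p < sz i → q < sz j → f i p = f j q → i = j ∧ p = q) ∧
    ∀ i j l p q r, p < sz i → q < sz j → r < sz l → R (f i p) (f j q) (f l r) →
      Q i j l ∧ (i = j → j = l → R' p q r)

theorem D.symm {n R S} (h : D n R S) : D n S R := by
  obtain ⟨π, h⟩ := h
  refine ⟨π.symm, fun a b c hn h1 h2 => h (π.symm a) (π.symm b) (π.symm c) ?_ h2 (by simpa using h1)⟩
  rintro ⟨e1, e2⟩
  exact hn ⟨π.symm.injective e1, π.symm.injective e2⟩

theorem glue {n M : ℕ} {sz : Fin M → ℕ} {R S Q1 Q2 R' S' : ℕ → ℕ → ℕ → Prop}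
    (μ : Equiv.Perm (Fin M))
    (hμ : ∀ i j l : Fin M, ¬ (i = j ∧ j = l) → Q1 i j l → Q2 (μ i) (μ j) (μ l) → False)
    (h1 : Str n M sz R Q1 R') (h2 : Str n M (fun i => sz (μ.symm i)) S Q2 S')
    (hs : ∑ i, sz i = n) (hD : ∀ i, D (sz i) R' S') : D n R S := by
  choose σ hσ using hD
  obtain ⟨f, f1, f2, f3⟩ := h1
  obtain ⟨g, g1, g2, g3⟩ := h2
  have hb : ∀ (i : Fin M) (p : Fin (sz i)), (σ i p).val < sz (μ.symm (μ i)) := by
    intro i p; rw [Equiv.symm_apply_apply]; exact (σ i p).2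
  let F : (Σ i, Fin (sz i)) → Fin n := fun x => ⟨f x.1 x.2, f1 _ _ x.2.2⟩
  let G : (Σ i, Fin (sz i)) → Fin n := fun x => ⟨g (μ x.1) (σ x.1 x.2), g1 _ _ (hb _ _)⟩
  have hc : Fintype.card (Σ i, Fin (sz i)) = Fintype.card (Fin n) := by simp [hs]
  have hF : Function.Bijective F := by
    refine (Fintype.bijective_iff_injective_and_card F).2 ⟨?_, hc⟩
    rintro ⟨i, p⟩ ⟨j, q⟩ h
    obtain ⟨e1, e2⟩ := f2 i p j q p.2 q.2 (congrArg Fin.val h)
    subst e1
    rw [Fin.ext e2]
  have hG : Function.Bijective G := by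
    refine (Fintype.bijective_iff_injective_and_card G).2 ⟨?_, hc⟩
    rintro ⟨i, p⟩ ⟨j, q⟩ h
    obtain ⟨e1, e2⟩ := g2 _ _ _ _ (hb i p) (hb j q) (congrArg Fin.val h)
    obtain rfl := μ.injective e1
    rw [(σ i).injective (Fin.ext e2)]
  refine ⟨(Equiv.ofBijective F hF).symm.trans (Equiv.ofBijective G hG), fun a b c hn hR hS => ?_⟩
  obtain ⟨⟨i, p⟩, rfl⟩ := hF.2 a
  obtain ⟨⟨j, q⟩, rfl⟩ := hF.2 b
  obtain ⟨⟨l, r⟩, rfl⟩ := hF.2 c
  simp only [Equiv.trans_apply, Equiv.ofBijective_symm_apply_apply, Equiv.ofBijective_apply] at hS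
  obtain ⟨a1, a2⟩ := f3 i j l p q r p.2 q.2 r.2 hR
  obtain ⟨b1, b2⟩ := g3 _ _ _ _ _ _ (hb i p) (hb j q) (hb l r) hS
  by_cases he : i = j ∧ j = l
  · obtain ⟨rfl, rfl⟩ := he
    refine hσ i p q r ?_ (a2 rfl rfl) (b2 rfl rfl)
    rintro ⟨rfl, rfl⟩
    exact hn ⟨rfl, rfl⟩
  · exact hμ i j l he a1 b1

theorem base (k : ℕ) : D k (I 0) (I 0) := by
  induction k using Nat.strong_induction_on with
  | _ k ih =>
    by_cases hk : k ≤ 1
    · exact ⟨1, fun a b c hn _ _ => hn ⟨Fin.ext (by omega), Fin.ext (by omega)⟩⟩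
    refine glue (M := 2) (sz := fun i => (k + 1 - i) / 2) (Q1 := fun i _ l => i = l)
      (Q2 := fun i j l => i = l → i = j) (R' := I 0) (S' := I 0) 1 ?_ ?_ ?_ ?_ ?_
    · intro i j l hn h1 h2
      have := h2 h1
      exact hn ⟨Fin.ext this, Fin.ext (by simp only [Equiv.Perm.coe_one, id] at this; omega)⟩
    · refine ⟨fun i p => 2 * p + i, ?_, ?_, ?_⟩
      · intro i p h; have := i.2; simp only at h ⊢; omega
      · intro i p j q _ _ h; have := i.2; have := j.2; simp only at h
        exact ⟨Fin.ext (by omega), by omega⟩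
      · intro i j l p q r _ _ _ h
        have := i.2; have := j.2; have := l.2
        simp only [I, abs_nonpos_iff] at h ⊢
        refine ⟨by omega, fun e1 e2 => ?_⟩
        subst e1 e2
        omega
    · refine ⟨fun i p => if i.val = 0 then p else p + (k + 1) / 2, ?_, ?_, ?_⟩
      · intro i p h; have := i.2
        change p < (k + 1 - i) / 2 at h
        simp only; split_ifs <;> omega
      · intro i p j q h1 h2 h; have := i.2; have := j.2
        change p < (k + 1 - i) / 2 at h1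
        change q < (k + 1 - j) / 2 at h2
        simp only at h
        split_ifs at h <;> exact ⟨Fin.ext (by omega), by omega⟩
      · intro i j l p q r h1 h2 h3 h
        have := i.2; have := j.2; have := l.2
        change p < (k + 1 - i) / 2 at h1
        change q < (k + 1 - j) / 2 at h2
        change r < (k + 1 - l) / 2 at h3
        simp only [I, abs_nonpos_iff] at h ⊢
        refine ⟨?_, fun e1 e2 => ?_⟩
        · split_ifs at h <;> omega
        · subst e1 e2
          split_ifs at h <;> omega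
    · simp [Fin.sum_univ_two]; omega
    · intro i; have := i.2; exact ih _ (by omega)

def szs (n M : ℕ) : Fin M → ℕ := fun i => if i.val < n % M then n / M + 1 else n / M

theorem szs_sum (n M : ℕ) (hM : 0 < M) : ∑ i, szs n M i = n := by
  have h : ∀ m, ∑ i ∈ range m, (if i < n % M then n / M + 1 else n / M)
      = m * (n / M) + min m (n % M) := by
    intro m
    induction m with
    | zero => simp
    | succ m ih => rw [Finset.sum_range_succ, ih, add_mul]; split_ifs <;> omega
  have := h M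
  rw [Finset.sum_range] at this
  unfold szs
  rw [this, min_eq_right (Nat.mod_lt _ hM).le, Nat.div_add_mod]

theorem str_res (n M : ℕ) (hM : 3 ≤ M) (s : ℤ) (hs : s ≤ 1) :
    Str n M (szs n M) (I s) (C M 2) (I 0) := by
  refine ⟨fun i p => p * M + i, ?_, ?_, ?_⟩
  · intro i p h
    have h1 := Nat.div_add_mod n M
    have := i.2
    unfold szs at h
    simp only
    split_ifs at h with h2
    · have : p * M ≤ n / M * M := Nat.mul_le_mul_right _ (by omega)
      rw [mul_comm M] at h1
      omega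
    · have : (p + 1) * M ≤ n / M * M := Nat.mul_le_mul_right _ (by omega)
      rw [mul_comm M] at h1
      rw [add_mul] at this
      omega
  · intro i p j q _ _ h
    simp only at h
    have e : i.val = j.val := by
      have := congrArg (· % M) h
      simpa [Nat.mul_add_mod_self_right, Nat.mod_eq_of_lt i.2, Nat.mod_eq_of_lt j.2] using this
    refine ⟨Fin.ext e, ?_⟩
    rw [e] at h
    exact Nat.eq_of_mul_eq_mul_right (by omega) (Nat.add_right_cancel h)
  · intro i j l p q r _ _ _ h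
    simp only [I] at h ⊢
    push_cast at h
    refine ⟨⟨-((p : ℤ) + r - 2 * q), ?_⟩, fun e1 e2 => ?_⟩
    · refine le_trans (le_of_eq ?_) (h.trans (by omega))
      congr 1; ring
    · subst e1 e2
      rw [abs_le] at h ⊢
      have : (3 : ℤ) ≤ M := by exact_mod_cast hM
      constructor <;> nlinarith

theorem str_int (n M k : ℕ) (hM : 3 ≤ M) (hk : 5 * M ≤ k) (sz : Fin M → ℕ)
    (h1 : ∀ i, k ≤ sz i) (h2 : ∀ i, sz i ≤ k + 1) (hs : ∑ i, sz i = n) (s : ℤ) (hs1 : s ≤ 1) :
    Str n M sz (C n s) (C M 2) (I s) := by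
  let z : ℕ → ℕ := fun i => if h : i < M then sz ⟨i, h⟩ else k
  let st : ℕ → ℕ := fun i => ∑ l ∈ range i, z l
  have hz : ∀ i : Fin M, z i = sz i := fun i => by simp [z]
  have z1 : ∀ i, k ≤ z i := fun i => by
    simp only [z]; split_ifs
    · exact h1 _
    · exact le_rfl
  have z2 : ∀ i, z i ≤ k + 1 := fun i => by
    simp only [z]; split_ifs
    · exact h2 _
    · omega
  have s0 : ∀ i, st (i + 1) = st i + z i := fun i => Finset.sum_range_succ _ _
  have sM : st M = n := by
    rw [← hs]; simp only [st]; rw [Finset.sum_range]; exact Finset.sum_congr rfl fun i _ => hz i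
  have mono : ∀ i j, i < j → st i + z i ≤ st j := by
    intro i j h
    rw [← s0]
    exact Finset.sum_le_sum_of_subset (Finset.range_mono h)
  have b : ∀ i, ∃ e, e ≤ i ∧ st i = k * i + e := by
    intro i
    induction i with
    | zero => exact ⟨0, le_rfl, by simp [st]⟩
    | succ i ih =>
      obtain ⟨e, he, h⟩ := ih
      have := z1 i
      have := z2 i
      exact ⟨e + (z i - k), by omega, by rw [s0, h, mul_add]; omega⟩
  have lt : ∀ (i : Fin M) p, p < sz i → st i + p < n := by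
    intro i p h
    have := mono i M i.2
    rw [hz] at this
    omega
  refine ⟨fun i p => st i + p, lt, ?_, ?_⟩
  · intro i p j q hp hq h
    simp only at h
    rcases lt_trichotomy i.val j.val with a | a | a
    · have := mono _ _ a; rw [hz] at this; omega
    · refine ⟨Fin.ext a, ?_⟩; rw [a] at h; omega
    · have := mono _ _ a; rw [hz] at this; omega
  · rintro i j l p q r hp hq hr ⟨m, h⟩
    have a1 := lt i p hp
    have a2 := lt j q hq
    have a3 := lt l r hr
    obtain ⟨ei, hi, si⟩ := b i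
    obtain ⟨ej, hj, sj⟩ := b j
    obtain ⟨el, hl, sl⟩ := b l
    obtain ⟨e, he, sn⟩ := b M
    rw [sM] at sn
    have := i.2; have := j.2; have := l.2
    have := h2 i; have := h2 j; have := h2 l
    simp only at h
    rw [abs_le] at h
    have hn : 3 * k ≤ n := by nlinarith
    have m1 : m ≤ 2 := by
      by_contra hc
      have : (3 : ℤ) * n ≤ m * n := by gcongr; omega
      omega
    have m2 : -2 ≤ m := by
      by_contra hc
      have : m * n ≤ (-3 : ℤ) * n := by gcongr; omega
      omega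
    refine ⟨⟨m, ?_⟩, fun e1 e2 => ?_⟩
    · have key : (k : ℤ) * ((i : ℕ) + (l : ℕ) - 2 * (j : ℕ) - m * M)
          = (((st i + p : ℕ) : ℤ) + (st l + r : ℕ) - 2 * (st j + q : ℕ) - m * n)
            - (ei + el - 2 * ej) - (p + r - 2 * q) + m * e := by
        rw [si, sj, sl, sn]; push_cast; ring
      have c1 : m * e ≤ 2 * M := by nlinarith
      have c2 : -(2 * M : ℤ) ≤ m * e := by nlinarith
      generalize ((i : ℕ) : ℤ) + (l : ℕ) - 2 * (j : ℕ) - m * M = w at key
      rw [abs_le]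
      constructor
      · by_contra hc
        have : (k : ℤ) * w ≤ k * (-3) := by gcongr; omega
        omega
      · by_contra hc
        have : (k : ℤ) * 3 ≤ k * w := by gcongr; omega
        omega
    · subst e1 e2
      have : m = 0 := by
        rcases lt_trichotomy m 0 with a | a | a
        · have : m * n ≤ (-1 : ℤ) * n := by gcongr; omega
          omega
        · exact a
        · have : (1 : ℤ) * n ≤ m * n := by gcongr; omega
          omega
      subst this
      unfold I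
      rw [abs_le]
      omega

theorem Str.mono {n M sz R R2 Q R'} (h : Str n M sz R Q R') (hR : ∀ a b c, R2 a b c → R a b c) :
    Str n M sz R2 Q R' := by
  obtain ⟨f, f1, f2, f3⟩ := h
  exact ⟨f, f1, f2, fun i j l p q r a b c d => f3 i j l p q r a b c (hR _ _ _ d)⟩

theorem szs_ge (n M : ℕ) (i) : n / M ≤ szs n M i := by unfold szs; split_ifs <;> omega
theorem szs_le (n M : ℕ) (i) : szs n M i ≤ n / M + 1 := by unfold szs; split_ifs <;> omega

theorem stepR {M : ℕ} (hM : 3 ≤ M) (hm : D M (C M 2) (C M 2)) (t : ℤ) (ht : t ≤ 1) (K : ℕ)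
    (h : ∀ k, K ≤ k → D k (I 0) (I t)) : ∃ N, ∀ n, N ≤ n → D n (I 1) (I t) := by
  obtain ⟨μ, hμ⟩ := hm
  refine ⟨(K + 5 * M) * M, fun n hn => ?_⟩
  have hk : K + 5 * M ≤ n / M := (Nat.le_div_iff_mul_le (by omega)).2 hn
  refine glue μ hμ (str_res n M hM 1 le_rfl)
    ((str_int n M (n / M) hM (by omega) _ (fun i => szs_ge _ _ _) (fun i => szs_le _ _ _)
      ((Equiv.sum_comp μ.symm _).trans (szs_sum n M (by omega))) t ht).mono
      fun a b c h => ⟨0, by simpa [I] using h⟩) (szs_sum n M (by omega))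
    fun i => h _ (le_trans (by omega) (szs_ge _ _ _))

theorem main {M : ℕ} (hM : 3 ≤ M) (hm : D M (C M 2) (C M 2)) :
    ∃ N, ∀ n, N ≤ n → D n (C n 1) (C n 1) := by
  obtain ⟨N1, h1⟩ := stepR hM hm 0 (by norm_num) 0 fun k _ => base k
  obtain ⟨K, h⟩ := stepR hM hm 1 le_rfl N1 fun k hk => (h1 k hk).symm
  obtain ⟨μ, hμ⟩ := hm
  refine ⟨(K + 5 * M) * M, fun n hn => ?_⟩
  have hk : K + 5 * M ≤ n / M := (Nat.le_div_iff_mul_le (by omega)).2 hn
  exact glue μ hμ
    (str_int n M (n / M) hM (by omega) _ (fun i => szs_ge _ _ _) (fun i => szs_le _ _ _)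
      (szs_sum n M (by omega)) 1 le_rfl)
    (str_int n M (n / M) hM (by omega) _ (fun i => szs_ge _ _ _) (fun i => szs_le _ _ _)
      ((Equiv.sum_comp μ.symm _).trans (szs_sum n M (by omega))) 1 le_rfl)
    (szs_sum n M (by omega)) fun i => h _ (le_trans (by omega) (szs_ge _ _ _))

end Pool.Agent.H.MP_147277_co
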