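import Pool.Agent.H.MP_147277_co.A

namespace Pool.Agent.H.MP_147277_co

def W (q : ℕ) (T : List (ℤ × ℤ)) : Prop :=
  3 ≤ q ∧ ∃ π : Equiv.Perm (ZMod q), ∀ s t : ℤ, |s| ≤ 2 → |t| ≤ 2 → (s, t) ∈ (0, 0) :: T →
    ∀ a b c : ZMod q, ¬ (a = b ∧ b = c) → a + c - 2 * b = s → π a + π c - 2 * π b = t → False

theorem W_of (q : ℕ) (hq : 3 ≤ q) (L : List ℕ) (T : List (ℤ × ℤ))
    (h1 : ∀ a < q, ∀ b < q, L.getD a 0 % q = L.getD b 0 % q → a = b)
    (h2 : ∀ st ∈ ((0, 0) :: T : List (ℤ × ℤ)), ∀ a < q, ∀ b < q, (a = b ∧ st.1 = 0) ∨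
      ((L.getD a 0 : ℤ) + L.getD ((2 * b + st.1 - a) % q).toNat 0 - 2 * L.getD b 0 - st.2) % q ≠ 0) :
    W q T := by
  have : NeZero q := ⟨by omega⟩
  let f : ZMod q → ZMod q := fun x => (L.getD x.val 0 : ℕ)
  have hf : Function.Injective f := by
    intro a b h
    exact ZMod.val_injective q (h1 _ a.val_lt _ b.val_lt ((ZMod.natCast_eq_natCast_iff' _ _ _).1 h))
  refine ⟨hq, Equiv.ofBijective f (Finite.injective_iff_bijective.1 hf), ?_⟩
  intro s t _ _ hst a b c hn e1 e2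
  have hc : c = ((2 * b.val + s - a.val : ℤ) : ZMod q) := by
    push_cast
    rw [ZMod.natCast_zmod_val, ZMod.natCast_zmod_val, ← e1]; ring
  have hv : c.val = ((2 * b.val + s - a.val : ℤ) % q).toNat := by
    rw [← ZMod.val_intCast, ← hc, Int.toNat_natCast]
  rcases h2 _ hst _ a.val_lt _ b.val_lt with ⟨h, h0⟩ | h
  · have hab := ZMod.val_injective q h
    simp only at h0
    subst h0 hab
    refine hn ⟨rfl, ?_⟩
    push_cast at e1
    linear_combination -e1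
  · apply h
    simp only
    rw [← hv]
    apply Int.emod_eq_zero_of_dvd
    rw [← ZMod.intCast_zmod_eq_zero_iff_dvd]
    push_cast
    simp only [Equiv.ofBijective_apply, f] at e2
    rw [← e2]; ring

theorem small {q : ℕ} (hq : 3 ≤ q) {s : ℤ} (hs : |s| ≤ 2) (h : (s : ZMod q) = 0) : s = 0 := by
  rw [ZMod.intCast_zmod_eq_zero_iff_dvd] at h
  exact Int.eq_zero_of_abs_lt_dvd h (by omega)

theorem W_mul {p q : ℕ} {T U : List (ℤ × ℤ)} (hp : W p T) (hq : W q U) (h : p.Coprime q) :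
    W (p * q) (T ++ U) := by
  obtain ⟨p3, π, hπ⟩ := hp
  obtain ⟨q3, ρ, hρ⟩ := hq
  let e := ZMod.chineseRemainder h
  refine ⟨by nlinarith, (e.toEquiv.trans (π.prodCongr ρ)).trans e.toEquiv.symm, ?_⟩
  intro s t hs ht hst a b c hn e1 e2
  have f1 := congrArg e e1
  have f2 := congrArg e e2
  simp only [map_sub, map_add, map_mul, map_ofNat, map_intCast, Equiv.trans_apply,
    RingEquiv.toEquiv_eq_coe, EquivLike.coe_coe, RingEquiv.coe_coe_toEquiv_symm,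
    RingEquiv.apply_symm_apply, Equiv.prodCongr_apply] at f1 f2
  have g1 : (e a).1 + (e c).1 - 2 * (e b).1 = s := by simpa using congrArg Prod.fst f1
  have g2 : (e a).2 + (e c).2 - 2 * (e b).2 = s := by simpa using congrArg Prod.snd f1
  have g3 : π (e a).1 + π (e c).1 - 2 * π (e b).1 = t := by simpa using congrArg Prod.fst f2
  have g4 : ρ (e a).2 + ρ (e c).2 - 2 * ρ (e b).2 = t := by simpa using congrArg Prod.snd f2
  have z : s = 0 → t = 0 → False := by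
    rintro rfl rfl
    by_cases k1 : (e a).1 = (e b).1 ∧ (e b).1 = (e c).1
    · by_cases k2 : (e a).2 = (e b).2 ∧ (e b).2 = (e c).2
      · exact hn ⟨e.injective (Prod.ext k1.1 k2.1), e.injective (Prod.ext k1.2 k2.2)⟩
      · exact hρ 0 0 hs ht (by simp) _ _ _ k2 g2 g4
    · exact hπ 0 0 hs ht (by simp) _ _ _ k1 g1 g3
  rcases List.mem_cons.1 hst with h0 | h0
  · exact z (congrArg Prod.fst h0) (congrArg Prod.snd h0)
  rcases List.mem_append.1 h0 with h0 | h0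
  · by_cases k1 : (e a).1 = (e b).1 ∧ (e b).1 = (e c).1
    · rw [← k1.2, k1.1] at g1 g3
      exact z (small p3 hs (by rw [← g1]; ring)) (small p3 ht (by rw [← g3]; ring))
    · exact hπ s t hs ht (List.mem_cons_of_mem _ h0) _ _ _ k1 g1 g3
  · by_cases k1 : (e a).2 = (e b).2 ∧ (e b).2 = (e c).2
    · rw [← k1.2, k1.1] at g2 g4
      exact z (small q3 hs (by rw [← g2]; ring)) (small q3 ht (by rw [← g4]; ring))
    · exact hρ s t hs ht (List.mem_cons_of_mem _ h0) _ _ _ k1 g2 g4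

theorem C_iff (n : ℕ) [NeZero n] (s : ℤ) (a b c : ZMod n) :
    C n s a.val b.val c.val ↔ ∃ δ : ℤ, |δ| ≤ s ∧ a + c - 2 * b = δ := by
  constructor
  · rintro ⟨m, h⟩
    exact ⟨_, h, by simp⟩
  · rintro ⟨δ, h, e⟩
    have : (((a.val : ℤ) + c.val - 2 * b.val - δ : ℤ) : ZMod n) = 0 := by
      push_cast
      simp only [ZMod.natCast_zmod_val]
      rw [e, sub_self]
    obtain ⟨m, hm⟩ := (ZMod.intCast_zmod_eq_zero_iff_dvd _ _).1 this
    refine ⟨m, ?_⟩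
    rwa [show (a.val : ℤ) + c.val - 2 * b.val - m * n = δ by linarith]

theorem master_of {q : ℕ} {T : List (ℤ × ℤ)} (h : W q T)
    (hT : ∀ s ∈ [-2, -1, 0, 1, 2], ∀ t ∈ [-2, -1, 0, 1, 2], (s, t) ∈ ((0, 0) :: T : List (ℤ × ℤ))) :
    ∃ M, 3 ≤ M ∧ D M (C M 2) (C M 2) := by
  obtain ⟨hq, π, hπ⟩ := h
  obtain ⟨m, rfl⟩ : ∃ m, q = m + 1 := ⟨q - 1, by omega⟩
  refine ⟨m + 1, hq, π, fun a b c hn h1 h2 => ?_⟩
  obtain ⟨s, hs, e1⟩ := (C_iff (m + 1) 2 a b c).1 h1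
  obtain ⟨t, ht, e2⟩ := (C_iff (m + 1) 2 (π a) (π b) (π c)).1 h2
  refine hπ s t hs ht (hT s ?_ t ?_) a b c hn e1 e2
  · rw [abs_le] at hs; simp only [List.mem_cons, List.not_mem_nil]; omega
  · rw [abs_le] at ht; simp only [List.mem_cons, List.not_mem_nil]; omega

theorem w9 : W 9 [(-2, -1)] :=
  W_of 9 (by norm_num) [0, 2, 8, 1, 5, 3, 4, 7, 6] _ (by decide +kernel) (by decide +kernel)

theorem w11 : W 11 [(1, 2)] :=
  W_of 11 (by norm_num) [0, 3, 7, 10, 4, 8, 6, 2, 5, 9, 1] _ (by decide +kernel) (by decide +kernel)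

theorem w13 : W 13 [(1, -2)] :=
  W_of 13 (by norm_num) [0, 12, 9, 1, 7, 10, 4, 8, 5, 11, 2, 3, 6] _ (by decide +kernel) (by decide +kernel)

theorem w16 : W 16 [(0, 1), (0, -1)] :=
  W_of 16 (by norm_num) [0, 6, 1, 2, 15, 8, 9, 5, 12, 7, 13, 14, 11, 10, 3, 4] _ (by decide +kernel) (by decide +kernel)

theorem w17 : W 17 [(1, 1), (-1, -1)] :=
  W_of 17 (by norm_num) [0, 10, 8, 12, 15, 9, 4, 11, 3, 7, 5, 16, 13, 6, 2, 14, 1] _ (by decide +kernel) (by decide +kernel)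

theorem w19 : W 19 [(1, -1), (-1, 1)] :=
  W_of 19 (by norm_num) [0, 15, 10, 13, 8, 12, 3, 7, 4, 17, 18, 9, 5, 6, 16, 1, 14, 2, 11] _ (by decide +kernel) (by decide +kernel)

theorem w23 : W 23 [(2, 2), (-2, -2)] :=
  W_of 23 (by norm_num) [0, 9, 17, 10, 22, 3, 11, 1, 16, 7, 15, 18, 20, 4, 21, 2, 14, 8, 12, 19, 5, 13, 6] _ (by decide +kernel) (by decide +kernel)

theorem w25 : W 25 [(0, 2), (0, -2)] :=
  W_of 25 (by norm_num) [0, 19, 18, 3, 2, 7, 22, 23, 8, 11, 10, 5, 4, 14, 17, 6, 21, 20, 12, 13, 9, 15, 16, 24, 1] _ (by decide +kernel) (by decide +kernel)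

theorem w29 : W 29 [(2, 0), (-2, 0)] :=
  W_of 29 (by norm_num) [0, 21, 6, 23, 27, 13, 18, 7, 12, 2, 11, 25, 3, 17, 28, 24, 1, 15, 9, 19, 5, 8, 4, 16, 14, 10, 20, 26, 22] _ (by decide +kernel) (by decide +kernel)

theorem w31 : W 31 [(2, -2), (-2, 2)] :=
  W_of 31 (by norm_num) [0, 19, 22, 23, 30, 13, 25, 16, 21, 9, 29, 4, 5, 1, 26, 2, 15, 11, 24, 10, 12, 28, 20, 6, 8, 27, 17, 14, 18, 3, 7] _ (by decide +kernel) (by decide +kernel)

theorem w37 : W 37 [(1, 0), (-1, 0)] :=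
  W_of 37 (by norm_num) [0, 11, 28, 7, 10, 31, 8, 24, 27, 32, 34, 22, 35, 6, 29, 16, 4, 1, 14, 33, 3, 17, 15, 12, 26, 19, 5, 9, 2, 30, 18, 23, 25, 20, 13, 36, 21] _ (by decide +kernel) (by decide +kernel)

theorem w41 : W 41 [(-1, 2)] :=
  W_of 41 (by norm_num) [0, 23, 22, 10, 27, 5, 8, 40, 32, 2, 28, 14, 26, 25, 6, 1, 35, 34, 16, 13, 30, 19, 7, 12, 21, 17, 18, 20, 29, 39, 38, 4, 3, 24, 33, 36, 15, 11, 37, 31, 9] _ (by decide +kernel) (by decide +kernel)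

theorem w43 : W 43 [(-1, -2)] :=
  W_of 43 (by norm_num) [0, 24, 9, 42, 8, 15, 36, 34, 11, 4, 1, 10, 17, 40, 26, 7, 21, 12, 33, 6, 35, 25, 28, 13, 27, 16, 19, 18, 38, 37, 2, 20, 23, 14, 32, 29, 39, 30, 41, 5, 3, 22, 31] _ (by decide +kernel) (by decide +kernel)

theorem w47 : W 47 [(2, 1)] :=
  W_of 47 (by norm_num) [0, 23, 39, 28, 38, 6, 8, 12, 13, 3, 43, 42, 29, 20, 22, 19, 5, 27, 44, 4, 30, 1, 15, 46, 2, 10, 25, 35, 17, 37, 11, 21, 24, 18, 26, 40, 9, 14, 34, 41, 7, 45, 32, 31, 16, 36, 33] _ (by decide +kernel) (by decide +kernel)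

theorem w49 : W 49 [(2, -1)] :=
  W_of 49 (by norm_num) [0, 23, 37, 27, 28, 46, 26, 34, 48, 35, 19, 38, 41, 31, 16, 20, 22, 5, 4, 12, 18, 44, 24, 25, 10, 47, 40, 30, 1, 9, 14, 29, 45, 11, 32, 43, 2, 21, 13, 17, 33, 3, 6, 42, 36, 7, 8, 39, 15] _ (by decide +kernel) (by decide +kernel)

theorem w53 : W 53 [(-2, 1)] :=
  W_of 53 (by norm_num) [0, 23, 22, 20, 35, 32, 9, 21, 13, 36, 44, 28, 17, 30, 5, 27, 42, 43, 1, 10, 6, 4, 49, 18, 46, 31, 26, 51, 37, 39, 19, 24, 16, 52, 50, 2, 14, 7, 8, 47, 41, 12, 34, 45, 25, 3, 48, 29, 38, 15, 11, 40, 33] _ (by decide +kernel) (by decide +kernel)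

theorem master : ∃ M, 3 ≤ M ∧ D M (C M 2) (C M 2) :=
  master_of (W_mul w9 (W_mul w11 (W_mul w13 (W_mul w16 (W_mul w17 (W_mul w19 (W_mul w23 (W_mul w25 (W_mul w29 (W_mul w31 (W_mul w37 (W_mul w41 (W_mul w43 (W_mul w47 (W_mul w49 w53 (by norm_num)) (by norm_num)) (by norm_num)) (by norm_num)) (by norm_num)) (by norm_num)) (by norm_num)) (by norm_num)) (by norm_num)) (by norm_num)) (by norm_num)) (by norm_num)) (by norm_num)) (by norm_num)) (by norm_num)) (by decide)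

end Pool.Agent.H.MP_147277_co
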